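import Pool.Agent.P.MP_4236ce_al.Tree

/-!
The groups `G n` generated by `a n` and `b n`: branching and normal subgroups.
-/

namespace Pool.Agent.P.MP_4236ce_al

open Subgroup
open scoped commutatorElement

/-- a subgroup normalised by a generated subgroup and containing the commutators of the
generators contains the derived subgroup -/
lemma commutator_closure_le {Γ : Type*} [Group Γ] (S : Set Γ) (N : Subgroup Γ)
    (hN : ∀ g ∈ closure S, ∀ h ∈ N, g * h * g⁻¹ ∈ N)
    (hS : ∀ x ∈ S, ∀ y ∈ S, ⁅x, y⁆ ∈ N) : ⁅closure S, closure S⁆ ≤ N := by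
  have key : ∀ (z : Γ), (∀ x ∈ S, ⁅x, z⁆ ∈ N) → ∀ x ∈ closure S, ⁅x, z⁆ ∈ N := by
    intro z hz x hx
    induction hx using closure_induction with
    | mem x hx => exact hz x hx
    | one => simp
    | mul x y hx hy ihx ihy =>
      have : ⁅x * y, z⁆ = x * ⁅y, z⁆ * x⁻¹ * ⁅x, z⁆ := by
        simp only [commutatorElement_def]; group
      rw [this]
      exact N.mul_mem (hN x hx _ ihy) ihx
    | inv x hx ihx =>
      have : ⁅x⁻¹, z⁆ = x⁻¹ * ⁅x, z⁆⁻¹ * x⁻¹⁻¹ := by
        simp only [commutatorElement_def]; group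
      rw [this]
      exact hN _ (inv_mem hx) _ (N.inv_mem ihx)
  rw [commutator_le]
  intro x hx y hy
  refine key y (fun s hs => ?_) x hx
  rw [← commutatorElement_inv]
  exact N.inv_mem (key s (fun t ht => hS t ht s hs) y hy)

/-- the group at level `n` -/
def G (n : ℕ) : Subgroup (Pm n) := closure {a n, b n}

/-- its derived subgroup -/
def C (n : ℕ) : Subgroup (Pm n) := ⁅G n, G n⁆

/-- the product of copies of `H` acting on the subtrees -/
def up {n : ℕ} (H : Subgroup (Pm (n + 1))) : Subgroup (Pm n) :=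
  (Subgroup.pi Set.univ (fun _ : X n => H)).map (tup n)

/-- action on a single subtree -/
def sgl {n : ℕ} (x : X n) : Pm (n + 1) →* Pm n :=
  (tup n).comp (MonoidHom.mulSingle (fun _ : X n => Pm (n + 1)) x)

lemma sgl_apply {n : ℕ} (x : X n) (h : Pm (n + 1)) : sgl x h = tup n (Pi.mulSingle x h) := rfl

lemma sgl_injective {n : ℕ} (x : X n) : Function.Injective (sgl x) := by
  intro h h' e
  have := tup_injective n e
  simpa using congrFun this x

/-- normalised by `G n` -/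
def Nz {n : ℕ} (N : Subgroup (Pm n)) : Prop := ∀ g ∈ G n, ∀ h ∈ N, g * h * g⁻¹ ∈ N

lemma a_mem (n : ℕ) : a n ∈ G n := subset_closure (by simp)
lemma b_mem (n : ℕ) : b n ∈ G n := subset_closure (by simp)

lemma rot_mem {n : ℕ} (k : X n) : rot k ∈ G n := by
  have : rot k = a n ^ k.val := by rw [a_pow, ZMod.natCast_zmod_val]
  rw [this]
  exact pow_mem (a_mem n) _

lemma tup_bb_mem {n : ℕ} (k : X n) : tup n (bb n k) ∈ G n := by
  rw [tup_bb]
  exact mul_mem (mul_mem (rot_mem k) (b_mem n)) (inv_mem (rot_mem k))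

lemma bb_mem {n : ℕ} (k x : X n) : bb n k x ∈ G (n + 1) := by
  unfold bb
  split_ifs
  · exact a_mem _
  · exact b_mem _
  · exact one_mem _

lemma mem_up {n : ℕ} {H : Subgroup (Pm (n + 1))} {g : Pm n} :
    g ∈ up H ↔ ∃ f : X n → Pm (n + 1), (∀ x, f x ∈ H) ∧ tup n f = g := by
  simp [up, Subgroup.mem_pi]

lemma up_mono {n : ℕ} {H K : Subgroup (Pm (n + 1))} (h : H ≤ K) : up H ≤ up K := by
  intro g hg
  obtain ⟨f, hf, rfl⟩ := mem_up.1 hg
  exact mem_up.2 ⟨f, fun x => h (hf x), rfl⟩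

lemma sgl_mem_up {n : ℕ} {H : Subgroup (Pm (n + 1))} (x : X n) {h : Pm (n + 1)} (hh : h ∈ H) :
    sgl x h ∈ up H := by
  refine mem_up.2 ⟨Pi.mulSingle x h, fun y => ?_, rfl⟩
  by_cases e : y = x
  · subst e; simpa using hh
  · simp [e]

lemma decomp {n : ℕ} {g : Pm n} (hg : g ∈ G n) :
    ∃ (f : X n → Pm (n + 1)) (k : X n), (∀ x, f x ∈ G (n + 1)) ∧ g = tup n f * rot k := by
  induction hg using closure_induction with
  | mem x hx =>
    rcases hx with rfl | rfl
    · exact ⟨1, 1, fun _ => one_mem _, by simp [a]⟩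
    · exact ⟨bb n 0, 0, bb_mem 0, by rw [rot_zero, mul_one, b_eq]⟩
  | one => exact ⟨1, 0, fun _ => one_mem _, by simp [rot_zero]⟩
  | mul x y _ _ ihx ihy =>
    obtain ⟨f, k, hf, rfl⟩ := ihx
    obtain ⟨f', k', hf', rfl⟩ := ihy
    refine ⟨f * fun x => f' (x - k), k + k', fun x => mul_mem (hf x) (hf' _), ?_⟩
    rw [map_mul, rot_add, mul_assoc, mul_assoc, ← mul_assoc (rot k), rot_mul_tup, mul_assoc]
  | inv x _ ihx =>
    obtain ⟨f, k, hf, rfl⟩ := ihx
    refine ⟨fun x => f⁻¹ (x - -k), -k, fun x => inv_mem (hf _), ?_⟩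
    rw [mul_inv_rev, ← map_inv, ← rot_neg, rot_mul_tup]

lemma G_le_of {n : ℕ} {H : Subgroup (Pm n)} (ha : a n ∈ H) (hb : b n ∈ H) : G n ≤ H := by
  rw [G, closure_le]
  rintro x (rfl | rfl)
  · exact ha
  · exact hb

/-- sections at `x` of the elements of `H` fixing the first level -/
def proj {n : ℕ} (H : Subgroup (Pm n)) (x : X n) : Subgroup (Pm (n + 1)) :=
  (H.comap (tup n)).map (Pi.evalMonoidHom (fun _ : X n => Pm (n + 1)) x)

lemma mem_proj {n : ℕ} {H : Subgroup (Pm n)} {x : X n} {h : Pm (n + 1)} :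
    h ∈ proj H x ↔ ∃ f : X n → Pm (n + 1), tup n f ∈ H ∧ f x = h := by
  simp [proj]

lemma G_le_proj {n : ℕ} (x : X n) : G (n + 1) ≤ proj (G n) x := by
  apply G_le_of
  · exact mem_proj.2 ⟨bb n x, tup_bb_mem x, bb_self n x⟩
  · refine mem_proj.2 ⟨bb n (x - 1), tup_bb_mem _, ?_⟩
    have := bb_succ n (x - 1)
    rwa [sub_add_cancel] at this

lemma nz_G (n : ℕ) : Nz (G n) := fun _ hg _ hh => mul_mem (mul_mem hg hh) (inv_mem hg)

lemma Nz.commutator {n : ℕ} {H K : Subgroup (Pm n)} (hH : Nz H) (hK : Nz K) : Nz ⁅H, K⁆ := by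
  intro g hg h hh
  have : ⁅H, K⁆ ≤ (⁅H, K⁆ : Subgroup (Pm n)).comap (MulAut.conj g).toMonoidHom := by
    rw [commutator_le]
    intro x hx y hy
    change g * ⁅x, y⁆ * g⁻¹ ∈ (⁅H, K⁆ : Subgroup (Pm n))
    rw [conjugate_commutatorElement]
    exact commutator_mem_commutator (hH g hg x hx) (hK g hg y hy)
  exact this hh

lemma nz_C (n : ℕ) : Nz (C n) := (nz_G n).commutator (nz_G n)

lemma C_le_G (n : ℕ) : C n ≤ G n := by
  rw [C, commutator_le]
  intro x hx y hy
  exact mul_mem (mul_mem (mul_mem hx hy) (inv_mem hx)) (inv_mem hy)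

lemma tup_conj_sgl {n : ℕ} (f : X n → Pm (n + 1)) (x : X n) (h : Pm (n + 1)) :
    tup n f * sgl x h * (tup n f)⁻¹ = sgl x (f x * h * (f x)⁻¹) := by
  rw [sgl_apply, sgl_apply, ← map_inv, ← map_mul, ← map_mul]
  congr 1
  ext1 y
  by_cases e : y = x
  · subst e; simp
  · simp [e]

lemma rot_conj_sgl {n : ℕ} (k x : X n) (h : Pm (n + 1)) :
    rot k * sgl x h * (rot k)⁻¹ = sgl (x + k) h := by
  rw [sgl_apply, sgl_apply, rot_conj]
  congr 1
  ext1 y
  by_cases e : y = x + k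
  · subst e; simp
  · have : y - k ≠ x := fun e' => e (by rw [← e']; ring)
    simp [e, this]

lemma comm_tup_sgl {n : ℕ} (f : X n → Pm (n + 1)) (x : X n) (h : Pm (n + 1)) :
    ⁅tup n f, sgl x h⁆ = sgl x ⁅f x, h⁆ := by
  rw [commutatorElement_def, tup_conj_sgl, commutatorElement_def, map_mul (sgl x) _ h⁻¹, map_inv]

lemma Nz.comap_sgl {n : ℕ} {N : Subgroup (Pm n)} (hN : Nz N) (x : X n) :
    Nz (N.comap (sgl x)) := by
  intro g hg h hh
  obtain ⟨f, hf, rfl⟩ := mem_proj.1 (G_le_proj x hg)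
  rw [mem_comap, ← tup_conj_sgl]
  exact hN _ hf _ hh

lemma Nz.up_le {n : ℕ} {N : Subgroup (Pm n)} (hN : Nz N) (x : X n) {H : Subgroup (Pm (n + 1))}
    (hH : H ≤ N.comap (sgl x)) : up H ≤ N := by
  rw [up, map_le_iff_le_comap, pi_le_iff]
  rintro y _ ⟨h, hh, rfl⟩
  change sgl y h ∈ N
  have := hN _ (rot_mem (y - x)) _ (hH hh)
  rwa [rot_conj_sgl, add_sub_cancel] at this

lemma Nz.up {n : ℕ} {H : Subgroup (Pm (n + 1))} (hH : Nz H) : Nz (up H) := by
  intro g hg h hh
  obtain ⟨f, k, hf, rfl⟩ := decomp hg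
  obtain ⟨f', hf', rfl⟩ := mem_up.1 hh
  refine mem_up.2 ⟨f * (fun x => f' (x - k)) * f⁻¹, fun x => hH _ (hf x) _ (hf' _), ?_⟩
  rw [map_mul, map_mul, map_inv, ← rot_conj]
  group

lemma Nz.C_le {n : ℕ} {N : Subgroup (Pm n)} (hN : Nz N) (h : ⁅a n, b n⁆ ∈ N) : C n ≤ N := by
  apply commutator_closure_le _ _ hN
  rintro x (rfl | rfl) y (rfl | rfl)
  · simp
  · exact h
  · rw [← commutatorElement_inv]; exact N.inv_mem h
  · simp

lemma comm_bb (n : ℕ) :
    ⁅tup n (bb n 0), tup n (bb n (-1))⁆ = sgl (0 : X n) ⁅a (n + 1), b (n + 1)⁆ := by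
  rw [← map_commutatorElement, sgl_apply]
  congr 1
  ext1 y
  have h1 := one_ne n
  have h2 := two_ne n
  have e0 : ⁅bb n 0, bb n (-1)⁆ y = ⁅bb n 0 y, bb n (-1) y⁆ := rfl
  rw [e0]
  by_cases e : y = 0
  · subst e
    have := bb_succ n (-1)
    rw [neg_add_cancel] at this
    rw [bb_self, this]; simp
  · rw [Pi.mulSingle_eq_of_ne e]
    by_cases e' : y = -1
    · rw [bb_other n 0 y e]
      · simp
      · rw [e', zero_add]; intro h; apply h2; linear_combination -h
    · rw [bb_other n (-1) y e']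
      · simp
      · simpa using e

/-- branching over the derived subgroup, in a strong form -/
lemma up_C_le (n : ℕ) : up (C (n + 1)) ≤ ⁅G n, C n⁆ := by
  have hN : Nz ⁅G n, C n⁆ := (nz_G n).commutator (nz_C n)
  apply hN.up_le 0
  apply (hN.comap_sgl 0).C_le
  rw [mem_comap, ← comm_bb, tup_bb n (-1), ← b_eq]
  have : ⁅b n, rot (-1) * b n * (rot (-1))⁻¹⁆ =
      b n * ⁅b n, ⁅(b n)⁻¹, rot (-1 : X n)⁆⁆ * (b n)⁻¹ := by
    simp only [commutatorElement_def]; group
  rw [this]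
  exact hN _ (b_mem n) _ (commutator_mem_commutator (b_mem n)
    (commutator_mem_commutator (inv_mem (b_mem n)) (rot_mem _)))

lemma GC_le_C (n : ℕ) : ⁅G n, C n⁆ ≤ C n := commutator_mono le_rfl (C_le_G n)

lemma up_C_le_C (n : ℕ) : up (C (n + 1)) ≤ C n := (up_C_le n).trans (GC_le_C n)

/-- quotients of conjugates of `b` lie in the derived subgroup -/
lemma bb_div_mem {n : ℕ} (k l : X n) : tup n (bb n k * (bb n l)⁻¹) ∈ C n := by
  rw [map_mul, map_inv, tup_bb, tup_bb]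
  have : rot k * b n * (rot k)⁻¹ * (rot l * b n * (rot l)⁻¹)⁻¹ =
      ⁅rot k, b n⁆ * ⁅rot l, b n⁆⁻¹ := by
    simp only [commutatorElement_def]; group
  rw [this]
  exact mul_mem (commutator_mem_commutator (rot_mem _) (b_mem n))
    (inv_mem (commutator_mem_commutator (rot_mem _) (b_mem n)))

lemma G_le_proj_C {n : ℕ} (x : X n) : G (n + 1) ≤ proj (C n) x := by
  have h1 := one_ne n
  have h2 := two_ne n
  have e : bb n (x + 1) x = 1 := by
    apply bb_other
    · intro h; apply h1; linear_combination -h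
    · intro h; apply h2; linear_combination -h
  apply G_le_of
  · refine mem_proj.2 ⟨_, bb_div_mem x (x + 1), ?_⟩
    simp [e, bb_self]
  · refine mem_proj.2 ⟨_, bb_div_mem (x - 1) (x + 1), ?_⟩
    have := bb_succ n (x - 1)
    rw [sub_add_cancel] at this
    simp [e, this]

lemma up_GC_le (n : ℕ) : up ⁅G (n + 1), C (n + 1)⁆ ≤ ⁅C n, C n⁆ := by
  have hN : Nz ⁅C n, C n⁆ := (nz_C n).commutator (nz_C n)
  apply hN.up_le 0
  rw [commutator_le]
  intro g hg c hc
  obtain ⟨f, hf, rfl⟩ := mem_proj.1 (G_le_proj_C 0 hg)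
  rw [mem_comap, ← comm_tup_sgl]
  exact commutator_mem_commutator hf (up_C_le_C n (sgl_mem_up 0 hc))

/-- iterated products -/
def iter (H : ∀ n, Subgroup (Pm n)) : ℕ → ∀ n, Subgroup (Pm n)
  | 0, n => H n
  | m + 1, n => up (iter H m (n + 1))

lemma K_two_le (n : ℕ) : iter C 2 n ≤ ⁅C n, C n⁆ :=
  (up_mono (up_C_le (n + 1))).trans (up_GC_le n)

/-- the key step: a normal subgroup that contains all commutators of a nontrivial element with
the derived subgroup contains some `iter C m n` -/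
lemma exists_K_le {n : ℕ} (w : W n) : ∀ (g : Pm n) (N : Subgroup (Pm n)), g ∈ G n → g w ≠ w →
    Nz N → (∀ c ∈ C n, ⁅g, c⁆ ∈ N) → ∃ m, iter C m n ≤ N := by
  induction w with
  | nil =>
    intro g N hg hw
    obtain ⟨f, k, -, rfl⟩ := decomp hg
    simp at hw
  | @cons n x w ih =>
    intro g N hg hw hN hc
    obtain ⟨f, k, hf, rfl⟩ := decomp hg
    by_cases hk : k = 0
    · subst hk
      rw [rot_zero, mul_one] at hw hc
      have hw' : f x w ≠ w := fun e => hw (by rw [tup_cons, e])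
      obtain ⟨m, hm⟩ := ih (f x) (N.comap (sgl x)) (hf x) hw' (hN.comap_sgl x) (fun c hc' => by
        rw [mem_comap, ← comm_tup_sgl]
        exact hc _ (up_C_le_C n (sgl_mem_up x hc')))
      exact ⟨m + 1, hN.up_le x hm⟩
    · refine ⟨3, hN.up_le x ((K_two_le (n + 1)).trans ?_)⟩
      rw [commutator_le]
      intro c hc1 d hd
      have h1 := hc _ (up_C_le_C n (sgl_mem_up x (inv_mem hc1)))
      have hd' : sgl x d ∈ G n := C_le_G n (up_C_le_C n (sgl_mem_up x hd))
      have h2 : ⁅⁅tup n f * rot k, sgl x c⁻¹⁆, sgl x d⁆ ∈ N := by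
        rw [commutatorElement_def _ (sgl x d), mul_assoc, mul_assoc, ← mul_assoc (sgl x d)]
        exact N.mul_mem h1 (hN _ hd' _ (N.inv_mem h1))
      have h3 : ⁅tup n f * rot k, sgl x c⁻¹⁆ =
          tup n (Pi.mulSingle (x + k) (f (x + k) * c⁻¹ * (f (x + k))⁻¹) * Pi.mulSingle x c) := by
        rw [map_mul, ← sgl_apply, ← sgl_apply, ← tup_conj_sgl, ← rot_conj_sgl, map_inv]
        simp only [commutatorElement_def]; group
      rw [h3, comm_tup_sgl] at h2
      have hne : x ≠ x + k := fun e => hk (by linear_combination -e)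
      rw [mem_comap]
      simpa [Pi.mulSingle_eq_of_ne hne] using h2

end Pool.Agent.P.MP_4236ce_al
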