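import Pool.Agent.P.MP_4236ce_al.Branch

/-!
The group `G 0` is infinite, just infinite, has no nontrivial perfect subgroup, and each of its
subgroups of finite index has nontrivial elements of order dividing 4 and of order dividing 5.
-/

namespace Pool.Agent.P.MP_4236ce_al

open Subgroup
open scoped commutatorElement

instance fgG (n : ℕ) : Group.FG (G n) := by
  unfold G
  exact Group.closure_finite_fg _

lemma iter_mono {H K : ∀ n, Subgroup (Pm n)} (h : ∀ n, H n ≤ K n) (m : ℕ) :
    ∀ n, iter H m n ≤ iter K m n := by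
  induction m with
  | zero => exact h
  | succ m ih => exact fun n => up_mono (ih (n + 1))

lemma K_succ_le (m : ℕ) : ∀ n, iter C (m + 1) n ≤ iter C m n := by
  induction m with
  | zero => exact up_C_le_C
  | succ m ih => exact fun n => up_mono (ih (n + 1))

lemma K_le_C (m n : ℕ) : iter C m n ≤ C n := by
  induction m with
  | zero => exact le_rfl
  | succ m ih => exact (K_succ_le m n).trans ih

lemma C_le_up (n : ℕ) : C n ≤ up (G (n + 1)) := by
  apply (nz_G (n + 1)).up.C_le
  rw [commutatorElement_def, a, ← tup_bb, b_eq, ← map_inv, ← map_mul]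
  exact mem_up.2 ⟨_, fun x => mul_mem (bb_mem _ _) (inv_mem (bb_mem _ _)), rfl⟩

lemma relIndex_C (n : ℕ) : (C n).relIndex (G n) ≠ 0 := by
  have hC : (C n).subgroupOf (G n) = commutator (G n) := by
    rw [C, ← Subgroup.map_subtype_commutator, subgroupOf,
      comap_map_eq_self_of_injective (subtype_injective _)]
  rw [relIndex, hC]
  have : Group.FG (Abelianization (G n)) :=
    Group.fg_of_surjective (f := Abelianization.of) (fun x => Quot.inductionOn x fun y => ⟨y, rfl⟩)
  have htor : IsMulTorsion (Abelianization (G n)) := by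
    intro x
    induction x using Quot.inductionOn with
    | _ y =>
      obtain ⟨y, hy⟩ := y
      change IsOfFinOrder (Abelianization.of (⟨y, hy⟩ : G n))
      induction hy using closure_induction with
      | mem x hx =>
        apply MonoidHom.isOfFinOrder
        rw [isOfFinOrder_iff_pow_eq_one]
        refine ⟨20, by norm_num, Subtype.ext ?_⟩
        rcases hx with rfl | rfl
        · exact a_pow_twenty n
        · exact b_pow_twenty n
      | one => exact (map_one (Abelianization.of (G := G n))).symm ▸ IsOfFinOrder.one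
      | mul x y hx hy ihx ihy =>
        exact (map_mul (Abelianization.of (G := G n)) ⟨x, hx⟩ ⟨y, hy⟩).symm ▸ ihx.mul ihy
      | inv x hx ihx =>
        exact (map_inv (Abelianization.of (G := G n)) ⟨x, hx⟩).symm ▸ ihx.inv
  have : Finite (G n ⧸ commutator (G n)) :=
    CommGroup.finite_of_fg_isMulTorsion (Abelianization (G n)) htor
  exact Subgroup.index_ne_zero_of_finite

lemma relIndex_up {n : ℕ} {H K : Subgroup (Pm (n + 1))} (h : H.relIndex K ≠ 0) :
    (up H).relIndex (up K) ≠ 0 := by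
  rw [up, up, relIndex_map_map_of_injective _ _ (tup_injective n)]
  have : Subgroup.pi Set.univ (fun _ : X n => H) =
      ⨅ x : X n, H.comap (Pi.evalMonoidHom (fun _ : X n => Pm (n + 1)) x) := by
    ext f; simp [Subgroup.mem_pi, Subgroup.mem_iInf]
  rw [this]
  apply relIndex_iInf_ne_zero
  intro x
  rw [relIndex_comap]
  intro h0
  apply h
  apply relIndex_eq_zero_of_le_right _ h0
  rintro _ ⟨f, hf, rfl⟩
  exact hf x trivial

lemma relIndex_K (m : ℕ) : ∀ n, (iter C m n).relIndex (G n) ≠ 0 := by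
  induction m with
  | zero => exact relIndex_C
  | succ m ih =>
    intro n
    refine relIndex_ne_zero_trans (relIndex_up (ih (n + 1))) ?_
    exact fun h0 => relIndex_C n (relIndex_eq_zero_of_le_left (C_le_up n) h0)

lemma commutator_up {n : ℕ} (H K : Subgroup (Pm (n + 1))) : ⁅up H, up K⁆ ≤ up ⁅H, K⁆ := by
  rw [commutator_le]
  intro x hx y hy
  obtain ⟨f, hf, rfl⟩ := mem_up.1 hx
  obtain ⟨g, hg, rfl⟩ := mem_up.1 hy
  exact mem_up.2 ⟨⁅f, g⁆, fun x => commutator_mem_commutator (hf x) (hg x),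
    map_commutatorElement _ _ _⟩

lemma commutator_S (m : ℕ) : ∀ n, ⁅iter G m n, iter G m n⁆ ≤ iter G (m + 1) n := by
  induction m with
  | zero => exact C_le_up
  | succ m ih => exact fun n => (commutator_up _ _).trans (up_mono (ih (n + 1)))

lemma S_fix {n : ℕ} (w : W n) : ∀ (m : ℕ) (g : Pm n), w.len ≤ m → g ∈ iter G m n → g w = w := by
  induction w with
  | nil =>
    intro m g _ hg
    cases m with
    | zero =>
      obtain ⟨f, k, -, rfl⟩ := decomp hg
      simp
    | succ m =>
      obtain ⟨f, -, rfl⟩ := mem_up.1 hg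
      simp
  | cons x w ih =>
    intro m g hm hg
    cases m with
    | zero => simp [W.len] at hm
    | succ m =>
      obtain ⟨f, hf, rfl⟩ := mem_up.1 hg
      rw [tup_cons, ih m (f x) (by simpa [W.len] using hm) (hf x)]

/-- no nontrivial perfect subgroup -/
lemma eq_bot_of_perfect {n : ℕ} {N : Subgroup (Pm n)} (hN : N ≤ G n) (hp : N ≤ ⁅N, N⁆) :
    N = ⊥ := by
  have key : ∀ m, N ≤ iter G m n := by
    intro m
    induction m with
    | zero => exact hN
    | succ m ih => exact hp.trans ((commutator_mono ih ih).trans (commutator_S m n))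
  rw [eq_bot_iff]
  intro g hg
  rw [mem_bot]
  ext w
  exact S_fix w _ g le_rfl (key _ hg)

lemma exists_torsion_C (n : ℕ) : ∃ z ∈ C n, z ≠ 1 ∧ z ^ q (n + 1) = 1 := by
  have h1 := one_ne n
  have h2 := two_ne n
  have h3 := three_ne n
  have e0 : bb n 2 0 = 1 := by
    apply bb_other
    · exact h2.symm
    · intro h; apply h3; linear_combination -h
  have e1 : bb n 2 (0 + 1) = 1 := by
    apply bb_other
    · intro h; apply h1; linear_combination -h
    · intro h; apply h2; linear_combination -h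
  have hq : q n * q (n + 1) = 20 := by rcases q_cases n with h | h <;> rw [h.1, h.2]
  refine ⟨tup n (bb n 0 * (bb n 2)⁻¹) ^ q n, pow_mem (bb_div_mem 0 2) _, ?_, ?_⟩
  · intro h
    rw [← map_pow, ← map_one (tup n)] at h
    have := congrFun (tup_injective n h) 0
    simp only [Pi.pow_apply, Pi.mul_apply, Pi.inv_apply, e0, bb_self, inv_one, mul_one,
      Pi.one_apply, a_pow] at this
    refine natCast_ne_zero (n + 1) (q n) ?_ (rot_eq_one this)
    rcases q_cases n with h | h <;> rw [h.1, h.2] <;> decide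
  · rw [← pow_mul, hq, ← map_pow, ← map_one (tup n)]
    congr 1
    ext1 x
    simp only [Pi.pow_apply, Pi.mul_apply, Pi.inv_apply, Pi.one_apply]
    by_cases x0 : x = 0
    · subst x0; rw [e0, bb_self]; simpa using a_pow_twenty _
    by_cases x1 : x = 0 + 1
    · subst x1; rw [e1, bb_succ]; simpa using b_pow_twenty _
    rw [bb_other n 0 x x0 x1, one_mul, inv_pow, inv_eq_one]
    unfold bb
    split_ifs
    · exact a_pow_twenty _
    · exact b_pow_twenty _
    · exact one_pow _

lemma exists_torsion_K (m : ℕ) : ∀ n, ∃ z ∈ iter C m n, z ≠ 1 ∧ z ^ q (n + m + 1) = 1 := by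
  induction m with
  | zero => exact exists_torsion_C
  | succ m ih =>
    intro n
    obtain ⟨z, hz, hz1, hz2⟩ := ih (n + 1)
    refine ⟨sgl 0 z, sgl_mem_up 0 hz, fun h => hz1 (sgl_injective 0 (by rw [h, map_one])), ?_⟩
    rw [← map_pow, show n + (m + 1) + 1 = n + 1 + m + 1 by ring, hz2, map_one]

instance infiniteG (n : ℕ) : Infinite (G n) := by
  by_contra hinf
  have : Finite (G n) := not_infinite_iff_finite.1 hinf
  have hw : ∀ g : G n, ∃ w : W n, g.1 w = w → g.1 = 1 := by
    intro g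
    by_cases h : g.1 = 1
    · exact ⟨.nil, fun _ => h⟩
    · by_contra hc
      apply h
      ext w
      by_contra hw
      exact hc ⟨w, fun e => (hw e).elim⟩
  choose w hw using hw
  obtain ⟨m, hm⟩ := (Set.finite_range fun g => (w g).len).bddAbove
  obtain ⟨z, hz, hz1, -⟩ := exists_torsion_K m n
  have hzG : z ∈ G n := C_le_G n (K_le_C m n hz)
  exact hz1 (hw ⟨z, hzG⟩ (S_fix _ m z (hm ⟨_, rfl⟩) (iter_mono C_le_G m n hz)))

/-- every nontrivial normal subgroup contains some `iter C m n` -/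
lemma exists_K_le_of_normal {n : ℕ} (N : Subgroup (G n)) [hN : N.Normal] (h : N ≠ ⊥) :
    ∃ m, (iter C m n).subgroupOf (G n) ≤ N := by
  obtain ⟨⟨g, hg⟩, hg1⟩ := Subgroup.ne_bot_iff_exists_ne_one.1 h
  have hg2 : g.1 ≠ 1 := fun e => hg1 (Subtype.ext (Subtype.ext e))
  obtain ⟨w, hw⟩ : ∃ w, g.1 w ≠ w := by
    by_contra hc
    apply hg2
    ext w
    by_contra hw
    exact hc ⟨w, hw⟩
  have hz : Nz (N.map (G n).subtype) := by
    rintro x hx _ ⟨y, hy, rfl⟩
    exact ⟨_, hN.conj_mem y hy ⟨x, hx⟩, rfl⟩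
  have hgN : g.1 ∈ N.map (G n).subtype := ⟨g, hg, rfl⟩
  obtain ⟨m, hm⟩ := exists_K_le w g.1 (N.map (G n).subtype) g.2 hw hz (fun c hc => by
    rw [commutatorElement_def, mul_assoc, mul_assoc, ← mul_assoc c]
    exact mul_mem hgN (hz c (C_le_G n hc) _ (inv_mem hgN)))
  refine ⟨m, fun x hx => ?_⟩
  obtain ⟨y, hy, e⟩ := hm hx
  rwa [← Subtype.ext e]

/-- just infinite -/
lemma finiteIndex_of_normal {n : ℕ} (N : Subgroup (G n)) [N.Normal] (h : N ≠ ⊥) :
    N.FiniteIndex := by
  obtain ⟨m, hm⟩ := exists_K_le_of_normal N h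
  have : ((iter C m n).subgroupOf (G n)).FiniteIndex := ⟨relIndex_K m n⟩
  exact Subgroup.finiteIndex_of_le hm

lemma ne_bot_of_finiteIndex {n : ℕ} (N : Subgroup (G n)) [hN : N.FiniteIndex] : N ≠ ⊥ := by
  rintro rfl
  apply hN.index_ne_zero
  rw [index_bot]
  exact Nat.card_eq_zero_of_infinite

lemma exists_torsion {n : ℕ} (M : Subgroup (G n)) [M.Normal] [M.FiniteIndex] {p : ℕ}
    (hp : p.Prime) : ∃ r : ℕ, r.Coprime p ∧ ∃ z ∈ M, z ≠ 1 ∧ z ^ r = 1 := by
  obtain ⟨m, hm⟩ := exists_K_le_of_normal M (ne_bot_of_finiteIndex M)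
  have key : ∀ k, iter C k n ≤ iter C m n → ∃ z ∈ M, z ≠ 1 ∧ z ^ q (n + k + 1) = 1 := by
    intro k hk
    obtain ⟨z, hz, hz1, hz2⟩ := exists_torsion_K k n
    exact ⟨⟨z, C_le_G n (K_le_C k n hz)⟩, hm (hk hz), fun e => hz1 (congrArg Subtype.val e),
      Subtype.ext hz2⟩
  have h4 : ∃ z ∈ M, z ≠ 1 ∧ z ^ 4 = 1 := by
    rcases q_cases (n + m + 1) with h | h
    · exact h.1 ▸ key m le_rfl
    · exact h.2 ▸ key (m + 1) (K_succ_le m n)
  have h5 : ∃ z ∈ M, z ≠ 1 ∧ z ^ 5 = 1 := by
    rcases q_cases (n + m + 1) with h | h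
    · exact h.2 ▸ key (m + 1) (K_succ_le m n)
    · exact h.1 ▸ key m le_rfl
  by_cases h : p = 5
  · subst h; exact ⟨4, by norm_num, h4⟩
  · exact ⟨5, (Nat.coprime_primes (by norm_num) hp).2 (Ne.symm h), h5⟩

lemma commutator_ne_top {n : ℕ} (N : Subgroup (G n)) [N.FiniteIndex] : commutator N ≠ ⊤ := by
  intro h
  apply ne_bot_of_finiteIndex N
  have h1 : ⁅N, N⁆ = N := by
    rw [← Subgroup.map_subtype_commutator, h, ← MonoidHom.range_eq_map, range_subtype]
  have h2 : N.map (G n).subtype = ⊥ := by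
    apply eq_bot_of_perfect (map_subtype_le N)
    rw [← map_commutator, h1]
  rwa [map_eq_bot_iff_of_injective _ (subtype_injective _)] at h2

end Pool.Agent.P.MP_4236ce_al
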