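import Mathlib

/-!
A branch group on the rooted tree whose levels have degrees 4, 5, 4, 5, ...
-/

namespace Pool.Agent.P.MP_4236ce_al

open Subgroup

/-- degree of the tree at level `n` -/
def q (n : ℕ) : ℕ := 4 + n % 2

instance (n : ℕ) : NeZero (q n) := ⟨by unfold q; omega⟩

/-- alphabet at level `n` -/
abbrev X (n : ℕ) : Type := ZMod (q n)

lemma q_cases (n : ℕ) : (q n = 4 ∧ q (n + 1) = 5) ∨ (q n = 5 ∧ q (n + 1) = 4) := by
  unfold q; omega

lemma natCast_ne_zero (n k : ℕ) (h0 : ¬ q n ∣ k) : (k : X n) ≠ 0 := by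
  rw [Ne, ZMod.natCast_eq_zero_iff]; exact h0

lemma one_ne (n : ℕ) : (1 : X n) ≠ 0 := by
  have := natCast_ne_zero n 1 (by rcases q_cases n with h | h <;> rw [h.1] <;> decide)
  simpa using this

lemma two_ne (n : ℕ) : (2 : X n) ≠ 0 := by
  have := natCast_ne_zero n 2 (by rcases q_cases n with h | h <;> rw [h.1] <;> decide)
  simpa using this

lemma three_ne (n : ℕ) : (3 : X n) ≠ 0 := by
  have := natCast_ne_zero n 3 (by rcases q_cases n with h | h <;> rw [h.1] <;> decide)
  simpa using this

/-- vertices of the tree hanging at level `n` -/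
inductive W : ℕ → Type
  | nil {n : ℕ} : W n
  | cons {n : ℕ} : X n → W (n + 1) → W n

/-- length of a word -/
def W.len : {n : ℕ} → W n → ℕ
  | _, .nil => 0
  | _, .cons _ w => w.len + 1

abbrev Pm (n : ℕ) : Type := Equiv.Perm (W n)

def rotFun {n : ℕ} (k : X n) : W n → W n
  | .nil => .nil
  | .cons x w => .cons (x + k) w

/-- rooted rotation -/
def rot {n : ℕ} (k : X n) : Pm n where
  toFun := rotFun k
  invFun := rotFun (-k)
  left_inv w := by cases w <;> simp [rotFun]
  right_inv w := by cases w <;> simp [rotFun]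

@[simp] lemma rot_nil {n : ℕ} (k : X n) : rot k .nil = .nil := rfl
@[simp] lemma rot_cons {n : ℕ} (k x : X n) (w : W (n + 1)) :
    rot k (.cons x w) = .cons (x + k) w := rfl

lemma rot_zero (n : ℕ) : rot (0 : X n) = 1 := by
  ext w; cases w <;> simp

lemma rot_add {n : ℕ} (k l : X n) : rot (k + l) = rot k * rot l := by
  ext w; cases w <;> simp [add_assoc, add_comm k l]

lemma rot_neg {n : ℕ} (k : X n) : rot (-k) = (rot k)⁻¹ := by
  rw [eq_inv_iff_mul_eq_one, ← rot_add, neg_add_cancel, rot_zero]

lemma rot_pow {n : ℕ} (k : X n) (m : ℕ) : rot k ^ m = rot ((m : X n) * k) := by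
  induction m with
  | zero => simp [rot_zero]
  | succ m ih => rw [pow_succ, ih, ← rot_add]; congr 1; push_cast; ring

lemma rot_eq_one {n : ℕ} {k : X n} (h : rot k = 1) : k = 0 := by
  have := congrArg (fun g : Pm n => g (.cons 0 .nil)) h
  simpa using this

def tupFun {n : ℕ} (f : X n → W (n + 1) → W (n + 1)) : W n → W n
  | .nil => .nil
  | .cons x w => .cons x (f x w)

/-- the embedding of tuples of permutations of the subtrees -/
def tup (n : ℕ) : (X n → Pm (n + 1)) →* Pm n where
  toFun f :=
    { toFun := tupFun (fun x => f x)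
      invFun := tupFun (fun x => (f x).symm)
      left_inv := fun w => by cases w <;> simp [tupFun]
      right_inv := fun w => by cases w <;> simp [tupFun] }
  map_one' := by ext w; cases w <;> simp [tupFun]
  map_mul' f g := by ext w; cases w <;> simp [tupFun]

@[simp] lemma tup_nil {n : ℕ} (f : X n → Pm (n + 1)) : tup n f .nil = .nil := rfl
@[simp] lemma tup_cons {n : ℕ} (f : X n → Pm (n + 1)) (x : X n) (w : W (n + 1)) :
    tup n f (.cons x w) = .cons x (f x w) := rfl

lemma tup_injective (n : ℕ) : Function.Injective (tup n) := by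
  intro f g h
  ext x w
  have := congrArg (fun k : Pm n => k (.cons x w)) h
  simpa using this

lemma rot_mul_tup {n : ℕ} (k : X n) (f : X n → Pm (n + 1)) :
    rot k * tup n f = tup n (fun x => f (x - k)) * rot k := by
  ext w; cases w <;> simp

lemma rot_conj {n : ℕ} (k : X n) (f : X n → Pm (n + 1)) :
    rot k * tup n f * (rot k)⁻¹ = tup n (fun x => f (x - k)) := by
  rw [rot_mul_tup]; simp

/-- powers of the directed generator, as functions -/
def bFun (m : ℕ) : {n : ℕ} → W n → W n
  | _, .nil => .nil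
  | _, .cons x w => .cons x (if x = 0 then rot (m : X _) w else if x = 1 then bFun m w else w)

lemma bFun_add (m m' : ℕ) {n : ℕ} (w : W n) : bFun m (bFun m' w) = bFun (m + m') w := by
  induction w with
  | nil => rfl
  | cons x w ih =>
    simp only [bFun]
    congr 1
    split_ifs with h0 h1
    · rw [Nat.cast_add, rot_add]; rfl
    · exact ih
    · rfl

lemma twenty (n : ℕ) : ((20 : ℕ) : X n) = 0 := by
  rw [ZMod.natCast_eq_zero_iff]
  rcases q_cases n with h | h <;> rw [h.1] <;> decide

lemma bFun_twenty {n : ℕ} (w : W n) : bFun 20 w = w := by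
  induction w with
  | nil => rfl
  | cons x w ih =>
    simp only [bFun]
    congr 1
    split_ifs with h0 h1
    · rw [twenty, rot_zero]; rfl
    · exact ih
    · rfl

/-- rooted generator -/
def a (n : ℕ) : Pm n := rot 1

/-- directed generator -/
def b (n : ℕ) : Pm n where
  toFun := bFun 1
  invFun := bFun 19
  left_inv w := by rw [bFun_add]; exact bFun_twenty w
  right_inv w := by rw [bFun_add]; exact bFun_twenty w

lemma b_pow_apply (n m : ℕ) (w : W n) : (b n ^ (m + 1)) w = bFun (m + 1) w := by
  induction m generalizing w with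
  | zero => rfl
  | succ m ih => rw [pow_succ, Equiv.Perm.mul_apply, ih]; exact bFun_add _ _ _

lemma b_pow_twenty (n : ℕ) : b n ^ 20 = 1 := by
  ext w; rw [b_pow_apply]; exact bFun_twenty w

lemma a_pow (n m : ℕ) : a n ^ m = rot (m : X n) := by
  rw [a, rot_pow, mul_one]

lemma a_pow_twenty (n : ℕ) : a n ^ 20 = 1 := by
  rw [a_pow, twenty, rot_zero]

/-- the sections of the conjugate of `b` by the `k`-th power of `a` -/
def bb (n : ℕ) (k : X n) : X n → Pm (n + 1) :=
  fun x => if x = k then a (n + 1) else if x = k + 1 then b (n + 1) else 1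

lemma b_eq (n : ℕ) : b n = tup n (bb n 0) := by
  ext w
  cases w with
  | nil => rfl
  | cons x w =>
    change bFun 1 (.cons x w) = _
    simp only [bFun, tup_cons, bb, zero_add]
    congr 1
    split_ifs with h0 h1
    · simp [a]
    · rfl
    · rfl

lemma tup_bb (n : ℕ) (k : X n) : tup n (bb n k) = rot k * b n * (rot k)⁻¹ := by
  rw [b_eq, rot_conj]
  congr 1
  ext1 x
  simp only [bb, zero_add, sub_eq_iff_eq_add', add_zero]

lemma bb_self (n : ℕ) (k : X n) : bb n k k = a (n + 1) := by simp [bb]

lemma bb_succ (n : ℕ) (k : X n) : bb n k (k + 1) = b (n + 1) := by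
  simp [bb, one_ne]

lemma bb_other (n : ℕ) (k x : X n) (h0 : x ≠ k) (h1 : x ≠ k + 1) : bb n k x = 1 := by
  simp [bb, h0, h1]

end Pool.Agent.P.MP_4236ce_al
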